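import Pool.Agent.Helper34.LU.Df
import Pool.Agent.Helper13.LT.Psb
import Pool.Agent.Helper13.LT.Rtm
import Pool.Agent.Helper13.LT.Hla
import Pool.Agent.Helper59.LT.PolB

/-!
PROJECT LT2 (MP_274814_nt), block V: power series of the vector functions, rational Taylor series.
-/

set_option autoImplicit false

namespace Pool.Agent.Helper96.LU

open Finset Pool.Agent.Helper34.LT LTG Pool.Agent.Helper34.LU Pool.Agent.Helper13.LT

variable {ι : Type} [Fintype ι]

theorem adg_prod {M : Type} [CommSemiring M] (F : ι → ℕ → ℕ → M) (m : ι → ℕ) :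
    ∑ p ∈ adg m, ∏ u, F u (p.1 u) (p.2 u) =
      ∏ u, ∑ i ∈ range (m u + 1), F u i (m u - i) := by
  classical
  rw [prod_univ_sum, adg, sum_image]
  · rfl
  · intro i _ j _ hij
    exact congrArg Prod.fst hij

/-- binomial theorem -/
theorem adg_binom {M : Type} [CommSemiring M] (z t : ι → M) (m : ι → ℕ) :
    ∑ p ∈ adg m, (∏ u, ((p.1 u + p.2 u).choose (p.2 u) : M)) * (∏ u, z u ^ p.1 u) *
      (∏ u, t u ^ p.2 u) = ∏ u, (z u + t u) ^ m u := by
  have h := adg_prod (fun u i j => ((i + j).choose j : M) * z u ^ i * t u ^ j) m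
  simp only [prod_mul_distrib] at h
  rw [h]
  refine prod_congr rfl fun u _ => ?_
  rw [add_pow]
  refine sum_congr rfl fun i hi => ?_
  have h1 : i ≤ m u := Nat.lt_succ_iff.1 (mem_range.1 hi)
  rw [Nat.add_sub_cancel' h1, Nat.choose_symm h1]
  ring

/-- the term of the double series -/
noncomputable def trm (φ : (ι → ℕ) → ℂ) (z t : ι → ℂ) (p : (ι → ℕ) × (ι → ℕ)) : ℂ :=
  φ (p.1 + p.2) * (∏ u, ((p.1 u + p.2 u).choose (p.2 u) : ℂ)) * (∏ u, z u ^ p.1 u) *
    ∏ u, t u ^ p.2 u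

private theorem fibK {E : Type} [NormedAddCommGroup E] (K : (ι → ℕ) × (ι → ℕ) → E) (m : ι → ℕ) :
    HasSum (fun q : {p : (ι → ℕ) × (ι → ℕ) // p.1 + p.2 = m} => K q.1) (∑ p ∈ adg m, K p) := by
  have h5 : HasSum (fun q : {p // p ∈ adg m} => K q.1) (∑ p ∈ adg m, K p) :=
    Finset.hasSum (adg m) K
  have e : {p : (ι → ℕ) × (ι → ℕ) | p.1 + p.2 = m} = {p | p ∈ adg m} := by
    ext p
    exact mem_adg.symm
  have h6 : HasSum ((fun p => K p) ∘ ((↑) : {p | p ∈ adg m} → (ι → ℕ) × (ι → ℕ)))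
      (∑ p ∈ adg m, K p) := h5
  rw [← e] at h6
  exact h6

theorem trm_norm (φ : (ι → ℕ) → ℂ) (z t : ι → ℂ) (m : ι → ℕ) :
    ∑ p ∈ adg m, ‖trm φ z t p‖ = ‖φ m‖ * ∏ u, (‖z u‖ + ‖t u‖) ^ m u := by
  rw [← adg_binom (fun u => ‖z u‖) (fun u => ‖t u‖) m, mul_sum]
  refine sum_congr rfl fun p hp => ?_
  rw [trm, mem_adg.1 hp, norm_mul, norm_mul, norm_mul, norm_prod, norm_prod, norm_prod]
  simp only [norm_pow, Complex.norm_natCast]
  ring

theorem trm_sum (φ : (ι → ℕ) → ℂ) (z t : ι → ℂ) (m : ι → ℕ) :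
    ∑ p ∈ adg m, trm φ z t p = φ m * ∏ u, (z u + t u) ^ m u := by
  rw [← adg_binom z t m, mul_sum]
  refine sum_congr rfl fun p hp => ?_
  rw [trm, mem_adg.1 hp]
  ring

theorem trm_summable {φ : (ι → ℕ) → ℂ} {f : (ι → ℂ) → ℂ} (h : PS φ f) (z t : ι → ℂ) :
    Summable (trm φ z t) := by
  refine Summable.of_norm ?_
  rw [← (Equiv.sigmaFiberEquiv (fun p : (ι → ℕ) × (ι → ℕ) => p.1 + p.2)).summable_iff]
  refine (summable_sigma_of_nonneg (f := (fun p => ‖trm φ z t p‖) ∘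
    (Equiv.sigmaFiberEquiv (fun p : (ι → ℕ) × (ι → ℕ) => p.1 + p.2)))
    (fun _ => norm_nonneg _)).2 ⟨?_, ?_⟩
  · intro m
    exact (fibK (fun p => ‖trm φ z t p‖) m).summable
  · have h1 : ∀ m : ι → ℕ, ∑' q : {p : (ι → ℕ) × (ι → ℕ) // p.1 + p.2 = m},
        ((fun p => ‖trm φ z t p‖) ∘
          (Equiv.sigmaFiberEquiv (fun p : (ι → ℕ) × (ι → ℕ) => p.1 + p.2))) ⟨m, q⟩ =
        ‖φ m‖ * ∏ u, (‖z u‖ + ‖t u‖) ^ m u := by
      intro m
      rw [← trm_norm]
      exact (fibK (fun p => ‖trm φ z t p‖) m).tsum_eq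
    refine Summable.congr ?_ fun m => (h1 m).symm
    have h2 := h.summable (R := ‖z‖ + ‖t‖) (by positivity)
    refine Summable.of_nonneg_of_le (fun m => by positivity) (fun m => ?_) h2
    refine mul_le_mul_of_nonneg_left ?_ (norm_nonneg _)
    rw [← prod_pow_eq_pow_sum]
    refine prod_le_prod (fun u _ => by positivity) fun u _ => ?_
    exact pow_le_pow_left₀ (by positivity)
      (add_le_add (norm_le_pi_norm z u) (norm_le_pi_norm t u)) _

theorem trm_hasSum {φ : (ι → ℕ) → ℂ} {f : (ι → ℂ) → ℂ} (h : PS φ f) (z t : ι → ℂ) :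
    HasSum (trm φ z t) (f (z + t)) := by
  have h1 := (trm_summable h z t).hasSum
  have h2 := (Equiv.sigmaFiberEquiv
    (fun p : (ι → ℕ) × (ι → ℕ) => p.1 + p.2)).hasSum_iff.mpr h1
  have h3 := HasSum.sigma h2 fun m => fibK (trm φ z t) m
  simp only [trm_sum] at h3
  have h4 := h (z + t)
  simp only [Pi.add_apply] at h4
  rw [← h3.unique h4]
  exact h1

/-- the Taylor coefficient of `t ↦ f (z + t)` -/
noncomputable def gb (φ : (ι → ℕ) → ℂ) (b : ι → ℕ) (z : ι → ℂ) : ℂ :=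
  ∑' a : ι → ℕ, (φ (a + b) * ∏ u, ((a u + b u).choose (b u) : ℂ)) * ∏ u, z u ^ a u

theorem ps_gb {φ : (ι → ℕ) → ℂ} {f : (ι → ℂ) → ℂ} (h : PS φ f) (b : ι → ℕ) :
    PS (fun a => φ (a + b) * ∏ u, ((a u + b u).choose (b u) : ℂ)) (gb φ b) := by
  intro z
  refine Summable.hasSum ?_
  have h1 := trm_summable h z (fun _ => 1)
  have h2 : Summable fun a : ι → ℕ => trm φ z (fun _ => 1) (a, b) :=
    h1.comp_injective (fun a a' haa => congrArg Prod.fst haa)
  refine h2.congr fun a => ?_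
  simp [trm]

theorem ps_shift {φ : (ι → ℕ) → ℂ} {f : (ι → ℂ) → ℂ} (h : PS φ f) (z : ι → ℂ) :
    PS (fun b => gb φ b z) (fun t => f (z + t)) := by
  intro t
  have h1 := (Equiv.prodComm (ι → ℕ) (ι → ℕ)).hasSum_iff.mpr (trm_hasSum h z t)
  refine HasSum.prod_fiberwise h1 fun b => ?_
  have h2 := (ps_gb h b z).mul_right (∏ u, t u ^ b u)
  refine h2.congr_fun fun a => ?_
  simp [trm]

theorem ps_exp (w : ι → ℂ) :
    PS (fun c : ι → ℕ => ∏ u, (-w u) ^ c u / ((c u).factorial : ℂ))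
      (fun t => Complex.exp (-∑ u, t u * w u)) := by
  intro t
  have h := hasSum_exp (fun u => t u * -w u)
  have h1 : ∑ u, t u * -w u = -∑ u, t u * w u := by
    rw [← sum_neg_distrib]
    exact sum_congr rfl fun u _ => by ring
  rw [h1] at h
  refine h.congr_fun fun c => ?_
  rw [← prod_mul_distrib]
  refine prod_congr rfl fun u _ => ?_
  rw [mul_pow]
  ring

theorem cof_eq {c : (ι → ℕ) → ℂ} {g : (ι → ℂ) → ℂ} (h : PS c g) : cof g = c := by
  have h0 : ∃ c : (ι → ℕ) → ℂ, PS c g := ⟨c, h⟩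
  have h1 : PS (Classical.choose h0) g := Classical.choose_spec h0
  have h2 := h1.unique h
  funext k
  rw [cof, dif_pos h0, h2]

/-- explicit formula for the vector functions -/
theorem vx_eq {φ : (ι → ℕ) → ℂ} {f : (ι → ℂ) → ℂ} (h : PS φ f) (k : ι → ℕ)
    (x : ι ⊕ ι → ℂ) :
    vx f k x = ∑ p ∈ adg k, (∏ u, (((p.1 u + p.2 u).choose (p.2 u) : ℕ) : ℂ)) *
      (∏ u, (-x (Sum.inr u)) ^ p.2 u) *
      ((∏ u, ((p.1 u).factorial : ℂ)) * gb φ p.1 (fun u => x (Sum.inl u))) := by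
  have h1 := (ps_shift h (fun u => x (Sum.inl u))).mul (ps_exp (fun u => x (Sum.inr u)))
  have h2 : (fun t : ι → ℂ => f (fun u => x (Sum.inl u) + t u) *
      Complex.exp (-∑ u, t u * x (Sum.inr u))) =
      fun t => f ((fun u => x (Sum.inl u)) + t) * Complex.exp (-∑ u, t u * x (Sum.inr u)) := rfl
  rw [vx, h2, cof_eq h1, cv, mul_sum]
  refine sum_congr rfl fun p hp => ?_
  have h3 : ∏ u, ((k u).factorial : ℂ) = (∏ u, ((p.1 u).factorial : ℂ)) *
      (∏ u, ((p.2 u).factorial : ℂ)) * ∏ u, (((p.1 u + p.2 u).choose (p.2 u) : ℕ) : ℂ) := by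
    rw [← Finset.prod_mul_distrib, ← Finset.prod_mul_distrib]
    refine Finset.prod_congr rfl fun u _ => ?_
    have h4 : k u = p.1 u + p.2 u := by rw [← mem_adg.1 hp]; rfl
    rw [h4]
    have h5 := Nat.add_choose_mul_factorial_mul_factorial (p.1 u) (p.2 u)
    rw [← h5]
    push_cast
    ring
  have h6 : ∏ u, (-x (Sum.inr u)) ^ p.2 u / (((p.2 u).factorial : ℕ) : ℂ) =
      (∏ u, (-x (Sum.inr u)) ^ p.2 u) / ∏ u, ((p.2 u).factorial : ℂ) := by
    rw [prod_div_distrib]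
  have h7 : ∏ u, ((p.2 u).factorial : ℂ) ≠ 0 :=
    prod_ne_zero_iff.2 fun u _ => Nat.cast_ne_zero.2 (Nat.factorial_ne_zero _)
  rw [h3, h6]
  field_simp

/-! ### rational Taylor series -/

theorem RT_coord {D : ℕ} (hD : 1 ≤ D) {J : Type} [Fintype J] (j : J) :
    RT D 0 (fun x : J → ℂ => x j) := by
  have h : RT (ι := Unit) D 0 (fun z => z ()) := by
    refine (RT_iff hD).2 ⟨fun m => if m () = 1 then 1 else 0, fun z => ?_, fun m => ?_⟩
    · have h1 := hasSum_single (f := fun m : Unit → ℕ =>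
        (if m () = 1 then (1 : ℂ) else 0) * ∏ u, z u ^ m u) (fun _ => 1) (fun m hm => by
          have h2 : m () ≠ 1 := fun h3 => hm (funext fun _ => h3)
          simp only [if_neg h2, zero_mul])
      simpa using h1
    · by_cases hm : m () = 1
      · exact ⟨(D : ℤ) ^ 1, by simp [hm]⟩
      · exact ⟨0, by simp [hm]⟩
  exact Pool.Agent.Helper59.LT.RT_emb h (fun _ => j) (fun _ _ _ => rfl)

theorem RT_mono' {D : ℕ} (hD : 1 ≤ D) {J : Type} [Fintype J] (e : ι → J) (c : ι → ℕ) :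
    RT D 0 (fun x : J → ℂ => ∏ u, (-x (e u)) ^ c u) := by
  have h1 := Pool.Agent.Helper59.LT.RT_prod (univ : Finset ι) hD (k := fun _ => 0)
    (f := fun u (x : J → ℂ) => (-x (e u)) ^ c u) (fun u _ => by
      have h2 := RT.pow hD (RT.neg hD (RT_coord hD (e u))) (c u)
      simpa only [zero_mul] using h2)
  simpa only [sum_const_zero] using h1

theorem gb_RT {D n : ℕ} (hD : 1 ≤ D) {φ : (ι → ℕ) → ℂ} {f : (ι → ℂ) → ℂ} (h : PS φ f)
    (hA : ∀ m : ι → ℕ, ∃ a : ℤ,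
      φ m * ((D : ℂ) ^ (∑ u, m u + n) * ∏ u, ((m u).factorial : ℂ)) = a) (b : ι → ℕ) :
    RT D (∑ u, b u + n) (fun z => (∏ u, ((b u).factorial : ℂ)) * gb φ b z) := by
  refine (RT_iff hD).2 ⟨_, (ps_gb h b).smul (∏ u, ((b u).factorial : ℂ)), fun a => ?_⟩
  obtain ⟨x, hx⟩ := hA (a + b)
  refine ⟨x, ?_⟩
  rw [← hx]
  have h2 : ∏ u, (((a + b) u).factorial : ℂ) = (∏ u, ((a u).factorial : ℂ)) *
      (∏ u, ((b u).factorial : ℂ)) * ∏ u, (((a u + b u).choose (b u) : ℕ) : ℂ) := by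
    rw [← Finset.prod_mul_distrib, ← Finset.prod_mul_distrib]
    refine Finset.prod_congr rfl fun u _ => ?_
    have h3 := Nat.add_choose_mul_factorial_mul_factorial (a u) (b u)
    rw [Pi.add_apply, ← h3]
    push_cast
    ring
  have h4 : ∑ u, (a + b) u + n = ∑ u, a u + (∑ u, b u + n) := by
    simp only [Pi.add_apply]
    rw [Finset.sum_add_distrib]
    ring
  rw [h2, h4]
  ring

/-- the vector functions have rational Taylor series -/
theorem vx_RT {D n : ℕ} (hD : 1 ≤ D) {f : (ι → ℂ) → ℂ} (h : RT D n f) (k : ι → ℕ) :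
    RT D (∑ u, k u + n) (vx f k) := by
  obtain ⟨φ, hφ, hA⟩ := (RT_iff hD).1 h
  have h1 : vx f k = fun x : ι ⊕ ι → ℂ => ∑ p ∈ adg k,
      ((∏ u, ((p.1 u + p.2 u).choose (p.2 u) : ℕ) : ℤ) : ℂ) *
        ((∏ u, (-x (Sum.inr u)) ^ p.2 u) *
        ((∏ u, ((p.1 u).factorial : ℂ)) * gb φ p.1 (fun u => x (Sum.inl u)))) := by
    funext x
    rw [vx_eq hφ]
    refine sum_congr rfl fun p hp => ?_
    push_cast
    ring
  rw [h1]
  refine RT.sum _ hD fun p hp => ?_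
  refine RT.zsmul hD ?_ _
  have h2 : RT D (∑ u, p.1 u + n) (fun x : ι ⊕ ι → ℂ =>
      (∏ u, ((p.1 u).factorial : ℂ)) * gb φ p.1 (fun u => x (Sum.inl u))) :=
    Pool.Agent.Helper59.LT.RT_emb (gb_RT hD hφ hA p.1) Sum.inl Sum.inl_injective
  have h3 := RT.mul hD (RT_mono' hD (Sum.inr : ι → ι ⊕ ι) p.2) h2
  refine RT.mono hD hD dvd_rfl ?_ h3
  have h4 : ∀ u, p.1 u ≤ k u := fun u => by
    have h5 := congrFun (mem_adg.1 hp) u
    rw [← h5]
    exact Nat.le_add_right _ _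
  have h6 : ∑ u, p.1 u ≤ ∑ u, k u := sum_le_sum fun u _ => h4 u
  omega

theorem card_HS {q : ℕ} {s : Finset ℕ} (hs : HS q s) : 2 * s.card ≤ q := by
  classical
  have h1 : Disjoint s (s.image fun u => q - u) := by
    rw [Finset.disjoint_left]
    intro u hu hv
    obtain ⟨v, hv1, hv2⟩ := mem_image.1 hv
    obtain ⟨a1, a2, a3⟩ := hs.mem v hv1
    exact (hs.half v a1 a2 a3).1 hv1 (hv2 ▸ hu)
  have h2 : (s.image fun u => q - u).card = s.card := by
    refine card_image_of_injOn fun u hu v hv huv => ?_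
    have a := (hs.mem u hu).2.1
    have b := (hs.mem v hv).2.1
    have huv' : q - u = q - v := huv
    omega
  have h3 : s ∪ (s.image fun u => q - u) ⊆ (range q).erase 0 := by
    intro u hu
    rw [mem_erase, mem_range]
    rcases mem_union.1 hu with h | h
    · have := hs.mem u h
      omega
    · obtain ⟨v, hv1, rfl⟩ := mem_image.1 h
      have := hs.mem v hv1
      omega
  have h4 := card_le_card h3
  rw [card_union_of_disjoint h1, h2] at h4
  have h5 := card_erase_le (s := range q) (a := 0)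
  rw [card_range] at h5
  omega

section target

variable (q : ℕ) (s t : Finset ℕ) (ρ1 ρ2 : ℕ → ℂ) (κ1 : s → ℂ) (κ2 : t → ℂ)
  (c1 c2 : Polynomial ℤ → ℂ) (f : (s → ℂ) → ℂ) (g : (t → ℂ) → ℂ)

theorem V_rt (h1 : IsTh q s ρ1 κ1 c1 f) (h2 : IsTh q t ρ2 κ2 c2 g) :
    ∃ D : ℕ, 1 ≤ D ∧ ∀ (L : ℕ) (j : JJ s t L), RT D (q * L + 2) (Vx f g j) := by
  obtain ⟨D1, hD1, hf⟩ := h1.rt
  obtain ⟨D2, hD2, hg⟩ := h2.rt
  have hD : 1 ≤ D1 * D2 := Nat.mul_pos hD1 hD2
  refine ⟨D1 * D2, hD, fun L j => ?_⟩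
  have e1 := vx_RT hD1 hf (fun u => (j.1 u : ℕ))
  have e2 := vx_RT hD2 hg (fun v => (j.2 v : ℕ))
  have i1 : Function.Injective (Sum.elim (fun u : s => (Sum.inl (Sum.inl u) : II s t))
      (fun u : s => Sum.inr (Sum.inl u))) := by
    rintro (a | a) (b | b) hab <;> simp at hab ⊢ <;> exact hab
  have i2 : Function.Injective (Sum.elim (fun u : t => (Sum.inl (Sum.inr u) : II s t))
      (fun u : t => Sum.inr (Sum.inr u))) := by
    rintro (a | a) (b | b) hab <;> simp at hab ⊢ <;> exact hab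
  have f1 := Pool.Agent.Helper59.LT.RT_emb e1 _ i1
  have f2 := Pool.Agent.Helper59.LT.RT_emb e2 _ i2
  have g1 := RT.mono hD1 hD (Dvd.intro _ rfl) le_rfl f1
  have g2 := RT.mono hD2 hD (Dvd.intro_left _ rfl) le_rfl f2
  have g3 := RT.mul hD g1 g2
  have h3 : (fun x : II s t → ℂ => vx f (fun u => (j.1 u : ℕ)) (fun i => x (Sum.elim
      (fun u : s => (Sum.inl (Sum.inl u) : II s t)) (fun u : s => Sum.inr (Sum.inl u)) i)) *
      vx g (fun u => (j.2 u : ℕ)) (fun i => x (Sum.elim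
      (fun u : t => (Sum.inl (Sum.inr u) : II s t)) (fun u : t => Sum.inr (Sum.inr u)) i))) =
      Vx f g j := by
    funext x
    rw [Vx]
    congr 1
  rw [h3] at g3
  refine RT.mono hD hD dvd_rfl ?_ g3
  have k1 : ∑ u : s, (j.1 u : ℕ) ≤ s.card * L := by
    calc ∑ u : s, (j.1 u : ℕ) ≤ ∑ _u : s, L := sum_le_sum fun u _ => by omega
      _ = s.card * L := by simp
  have k2 : ∑ u : t, (j.2 u : ℕ) ≤ t.card * L := by
    calc ∑ u : t, (j.2 u : ℕ) ≤ ∑ _u : t, L := sum_le_sum fun u _ => by omega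
      _ = t.card * L := by simp
  have k3 : s.card + t.card ≤ q := by
    have a := card_HS h1.half
    have b := card_HS h2.half
    omega
  have k4 := Nat.mul_le_mul_right L k3
  rw [add_mul] at k4
  omega

end target

end Pool.Agent.Helper96.LU
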